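import Mathlib
import Pool.Agent.Lib.P187f6b.Defs
import Pool.Agent.Lib.P187s.Exist

/-!
# Small values at the origin: the extremal functions are Blaschke products of degree two

For `0 < l ≤ 10 ^ (-16)` the best constant is the minimum, over an explicit family of Blaschke
products of degree two with two real parameters, of the radius at which the majorant equals one,
and every extremal function is a rotation of a member of this family.
-/

set_option autoImplicit false

open Pool.Agent.P187f6b Pool.Agent.P187o Pool.Agent.P187s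

namespace Pool.Agent.P187wOld.Structure

/-- For `0 < l ≤ 10 ^ (-16)`: the best constant `B l` is the least `r` in `[0, 1)` for which
`maj l (GG l a η) r = 1` for some `0 ≤ a < 1` and `|η| = 1`, where `GG l a η` is
`(l + η Q) / (1 + l η Q)` with `Q = z (a - z) / (1 - a z)`; and every `f` in the class with
`maj l f (B l) = 1` is of the form `f z = GG l a η (ω z)` with `|η| = |ω| = 1` and
`|a - 1 / √2| ≤ 7 l`. -/
theorem result (l : ℝ) (h0 : 0 < l) (h1 : l ≤ 1 / 10 ^ 16) :
    IsLeast {r : ℝ | 0 ≤ r ∧ r < 1 ∧ ∃ (a : ℝ) (η : ℂ), 0 ≤ a ∧ a < 1 ∧ ‖η‖ = 1 ∧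
      maj l (GG l a η) r = 1} (BB l) ∧
    ∀ f ∈ FClass l, maj l f (BB l) = 1 →
      ∃ (a : ℝ) (η ω : ℂ), 0 ≤ a ∧ a < 1 ∧ |a - 1 / √2| ≤ 7 * l ∧ ‖η‖ = 1 ∧ ‖ω‖ = 1 ∧
        ∀ z : ℂ, ‖z‖ < 1 → f z = GG l a η (ω * z) := by
  have hnu := nu_pos
  have hnu1 := nu_lt
  have hnu2 := lt_nu
  have hl1 : l ≤ 1 / 16 := h1.trans (by norm_num)
  have hlt : l < 1 := by linarith
  have hlo := BB_lower h0 hl1
  have hup := BB_upper h0 h1
  have hB0 : 0 < BB l := lt_of_lt_of_le (mul_pos hnu (by linarith)) hlo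
  have hBν : BB l ≤ nu := by
    refine hup.trans ?_
    nlinarith
  have h7l : 7 * l ≤ 7 / 10 ^ 16 := by linarith
  norm_num at h7l hnu1 hnu2
  have hbd : ∀ x : ℝ, |x - nu| ≤ 7 * l → 0 ≤ x ∧ x < 1 := by
    intro x hx
    rw [abs_le] at hx
    constructor
    · linarith [hx.1]
    · linarith [hx.2]
  have hnu' : (1 : ℝ) / √2 = nu := by
    unfold nu
    have h2 : √2 ≠ 0 := by positivity
    have h3 : √2 * √2 = 2 := Real.mul_self_sqrt (by norm_num)
    rw [div_eq_iff h2]
    linarith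
  refine ⟨⟨?_, ?_⟩, ?_⟩
  · obtain ⟨a, η, ha, hη, hm⟩ := exists_extremal h0 h1
    exact ⟨hB0.le, by linarith, a, η, (hbd a ha).1, (hbd a ha).2, hη, hm⟩
  · rintro r ⟨hr0, hr1, a, η, ha0, ha1, hη, hm⟩
    by_contra hcon
    rw [not_le] at hcon
    have hG := GG_mem h0.le hlt hη ha0 ha1
    have hle := maj_BB_le h0 h1 hG
    have hsum : ∀ s, 0 ≤ s → s < 1 →
        Summable fun n : ℕ => ‖tc (GG l a η) (n + 1)‖ * s ^ (n + 1) := fun s h2 h3 =>
      (summable_nat_add_iff (f := fun n : ℕ => ‖tc (GG l a η) n‖ * s ^ n) 1).2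
        (tc_summable hG.1 h2 h3)
    have hme : ∀ s, maj l (GG l a η) s =
        l + ∑' n : ℕ, ‖tc (GG l a η) (n + 1)‖ * s ^ (n + 1) := fun _ => rfl
    have hB1 : BB l < 1 := by linarith
    have hs1 := hsum r hr0 hr1
    have hs2 := hsum (BB l) hB0.le hB1
    -- some coefficient does not vanish
    have hex : ∃ n, ‖tc (GG l a η) (n + 1)‖ ≠ 0 := by
      by_contra hcon2
      push Not at hcon2
      rw [hme] at hm
      simp only [hcon2, zero_mul, tsum_zero, add_zero] at hm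
      linarith
    obtain ⟨n, hn⟩ := hex
    have hn0 : 0 < ‖tc (GG l a η) (n + 1)‖ := lt_of_le_of_ne (norm_nonneg _) (Ne.symm hn)
    have hlt2 := hs1.tsum_lt_tsum (i := n) (fun k => ?_) ?_ hs2
    · rw [hme] at hm hle
      linarith
    · exact mul_le_mul_of_nonneg_left (pow_le_pow_left₀ hr0 hcon.le _) (norm_nonneg _)
    · exact mul_lt_mul_of_pos_left (pow_lt_pow_left₀ hcon hr0 (by omega)) hn0
  · intro f hf hfm
    obtain ⟨a, η, ω, ha, hη, hω, h2, _⟩ := reduce h0 h1 hf hlo (by nlinarith) hBν hfm.ge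
    refine ⟨a, η, ω, (hbd a ha).1, (hbd a ha).2, by rw [hnu']; exact ha, hη, hω, ?_⟩
    rcases h2 with h3 | h3
    · exfalso
      have h4 := maj_BB_le h0 h1 (GG_mem h0.le hlt hη (hbd a ha).1 (hbd a ha).2)
      linarith
    · exact h3

end Pool.Agent.P187wOld.Structure
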