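import Mathlib
import Pool.Agent.Lib.P187f6b.Defs
import Pool.Agent.Lib.P187f6b.Threshold
import Pool.Agent.Lib.P187f6b.Low

/-!
# The range on which the best constant has the Moebius value

There is one threshold `c`, with `11 / 30 < c ≤ 11 / 25`, such that for `0 < l < 1` the best
constant `B l` equals `1 / (1 + 2 l)` exactly when `c ≤ l`.
-/

set_option autoImplicit false

open Set
open Pool.Agent.P187f6b

namespace Pool.Agent.P187wOld.Threshold

/-- There is a threshold `c` with `11 / 30 < c ≤ 11 / 25` such that, for `0 < l < 1`, the best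
constant equals `1 / (1 + 2 l)` if and only if `c ≤ l`. -/
theorem result : ∃ c : ℝ, 11/30 < c ∧ c ≤ 11/25 ∧
    ∀ l : ℝ, 0 < l → l < 1 → (BB l = 1 / (1 + 2 * l) ↔ c ≤ l) := by
  set S : Set ℝ := {l | 0 < l ∧ l < 1 ∧ EE l} with hS
  have hbase : (11/25 : ℝ) ∈ S := ⟨by norm_num, by norm_num, EE_base⟩
  have hlow : ∀ l ∈ S, 11/30 < l := by
    intro l hl
    by_contra hcon
    rw [not_lt] at hcon
    exact not_EE_low (EE_mono hl.1.le hcon (by norm_num) hl.1 hl.2.2)
  have hbdd : BddBelow S := ⟨11/30, fun l hl => (hlow l hl).le⟩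
  set c := sInf S with hc
  have hc1 : c ≤ 11/25 := csInf_le hbdd hbase
  have hc0 : 11/30 ≤ c := le_csInf ⟨_, hbase⟩ (fun l hl => (hlow l hl).le)
  have hEc : EE c := by
    refine EE_closed (by linarith) (by linarith) (fun l hl hl1 => ?_)
    obtain ⟨a, ha, hal⟩ := exists_lt_of_csInf_lt ⟨_, hbase⟩ hl
    exact EE_mono ha.1.le hal.le hl1 ha.1 ha.2.2
  have hcS : c ∈ S := ⟨by linarith, by linarith, hEc⟩
  refine ⟨c, hlow c hcS, hc1, fun l h1 h2 => ?_⟩
  rw [BB_eq_iff h1 h2]
  constructor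
  · intro h
    exact csInf_le hbdd ⟨h1, h2, h⟩
  · intro h
    exact EE_mono hcS.1.le h h2 hcS.1 hEc

end Pool.Agent.P187wOld.Threshold
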